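import Pool.Agent.N820.RS.One

/-!
# Rank one Stark over ATR fields: a local-global principle

Let `k` be an ATR field, `𝔣` a nonzero ideal, not the unit ideal if `k` has only one real place, `S`
the set of the infinite places and the primes which divide `𝔣`, and `H / k` a finite abelian
extension which is unramified outside `S` (for the other abelian extensions there is no Artin map on
the ideals prime to `𝔣`, and the statements below are empty), for instance the narrow ray class field
`k⁺(𝔣)`.

The conjecture for `H` is the conjunction of its `l`-parts (`l` prime), and the `l`-part for `H`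
follows from the `l`-parts for the fields `L` between `k` and `H` for which `Gal(L/k)` is the product
of an `l`-group and a cyclic group of order prime to `l`.

The engine is the theorem of helper598 (`MP_ca56d1_nt.LocalGlobal`) for Tate's form of the
conjecture.
-/

set_option autoImplicit false

namespace Pool.Agent.Results.MP_29cb78_nt.LocalGlobal

open NumberField IsDedekindDomain Pool.Agent.N598.ST Pool.Agent.N820.RS

/-- `k` is an ATR field: it has at least one real place and exactly one complex place. -/
structure IsATR (k : Type) [Field k] [NumberField k] : Prop where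
  real : 1 ≤ InfinitePlace.nrRealPlaces k
  complex : InfinitePlace.nrComplexPlaces k = 1

/-- Let `k` be an ATR field, `𝔣` a nonzero ideal, `𝔣 ≠ 𝓞 k` if `k` has exactly one real place, let
`S` consist of the infinite places and the primes dividing `𝔣`, and let `H / k` be abelian.
1. For every prime `l`: if the `l`-part of the conjecture holds for all `L / k` which embed in `H`
  and whose Galois group is the product of an `l`-group and a cyclic group of order prime to `l`,
  then it holds for `H / k`.
2. If this is so for all primes `l`, then the conjecture holds for `H / k`.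
3. The conjecture for `H / k` implies all its `l`-parts. -/
theorem result (k : Type) [Field k] [NumberField k] (hk : IsATR k) (𝔣 : Ideal (𝓞 k))
    (hf0 : 𝔣 ≠ ⊥) (hf1 : InfinitePlace.nrRealPlaces k = 1 → 𝔣 ≠ ⊤)
    (S : Finset (Place k)) (hS : IsModulus 𝔣 S)
    (H : Type) [Field H] [NumberField H] [Algebra k H] [IsAbelianGalois k H] :
    (∀ l : ℕ, l.Prime →
      (∀ (L : Type) [Field L] [NumberField L] [Algebra k L], Nonempty (L →ₐ[k] H) →
        CyclicOutside l Gal(L/k) → CPart k L l S) → CPart k H l S) ∧
    ((∀ l : ℕ, l.Prime → ∀ (L : Type) [Field L] [NumberField L] [Algebra k L],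
      Nonempty (L →ₐ[k] H) → CyclicOutside l Gal(L/k) → CPart k L l S) → CMul k H 1 S) ∧
    (CMul k H 1 S → ∀ l : ℕ, l.Prime → CPart k H l S) := by
  have hc : Fintype.card (InfinitePlace k) = InfinitePlace.nrRealPlaces k + 1 := by
    rw [InfinitePlace.card_eq_nrRealPlaces_add_nrComplexPlaces, hk.complex]
  have h3 : 3 ≤ S.card := by
    by_cases h1 : InfinitePlace.nrRealPlaces k = 1
    · exact hS.card (hf1 h1) (by omega) hf0
    · have := hk.real
      exact hS.card' (by omega)
  obtain ⟨ha, hb⟩ := onecomplex (H := H) hk.complex hS.inf h3
  exact ⟨ha, fun h => hb.2 fun l hl => ha l hl (h l hl), hb.1⟩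

end Pool.Agent.Results.MP_29cb78_nt.LocalGlobal
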