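import Pool.Agent.N739.SU.Pages

/-!
# Stark units over ATR fields: `ζ'_𝔣([𝔟], 0)` from the primes of the narrow ray classes

Let `k` be an ATR field (`r ≥ 1` real embeddings and exactly one pair of complex embeddings; the theorem
below also allows `r = 0`), `𝔣` an integral ideal, `𝔣 ≠ 0, 𝒪_k`, `G = Cl⁺(𝔣)` the narrow ray class group and `cl` the map from the ideals
prime to `𝔣` to `G`.  For `γ > π/2`, `T > 0` and a class `B` let

`P_T(B) = ∑ (1/m) e^{iγ m log N(v) / T} / Γ(1 + m log N(v) / T)`,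

the sum over all primes `v ∤ 𝔣` and all `m ≥ 1` with `v^m ∈ B`.  This converges absolutely, and the weight
of every single prime power `v^m` tends to `1/m` as `T → ∞`.  Let `Z_T(A)` be the coefficient of `A` of the
exponential `exp(∑_B P_T(B) [B])` in the group ring `ℂ[G]`.  We prove, without any hypothesis,
`ζ_𝔣(A, 0) = 0` and

`ζ'_𝔣(A, 0) = T e^{-Λ} Z_T(A) + O(1/T)` (`T → ∞`), `Λ = ∫_0^∞ (e^{-u} - e^{iγu} / Γ(1 + u)) du / u`.

So the numbers `|u^{σ_𝔟}|² = exp(-e_𝔣 ζ'_𝔣([𝔟], 0))` of condition 1 are the limits of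
`exp(-e_𝔣 T e^{-Λ} Z_T([𝔟]))`, expressions in which only the norms of the primes of `k` and their classes
occur: a unit `u` satisfies condition 1 if and only if these expressions tend to `|u^{σ_𝔟}|²` for all
classes along one sequence `T_n → ∞`.
-/

set_option autoImplicit false

open scoped Classical

namespace Pool.Agent.Results.MP_29cb78_nt.UnitsFromPrimes

open NumberField IsDedekindDomain Filter Topology

section defs

variable {K : Type} [Field K] [NumberField K]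

/-- the ideals prime to `𝔣` -/
def PrimeTo (𝔣 : Ideal (𝓞 K)) : Submonoid (Ideal (𝓞 K)) where
  carrier := {𝔞 | IsCoprime 𝔞 𝔣}
  mul_mem' hx hy := IsCoprime.mul_left hx hy
  one_mem' := isCoprime_one_left

/-- `G` is the narrow ray class group `Cl⁺(𝔣)` and `cl` maps an integral ideal prime to `𝔣` to its
class: `𝔞` and `𝔟` are in the same class if and only if `x 𝔞 = y 𝔟` with totally positive
`x ≡ y ≡ 1 mod 𝔣`. -/
structure IsNarrowRayClass (𝔣 : Ideal (𝓞 K)) {G : Type} [CommGroup G] (cl : PrimeTo 𝔣 →* G) :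
    Prop where
  surj : Function.Surjective cl
  eq_iff : ∀ 𝔞 𝔟 : PrimeTo 𝔣, cl 𝔞 = cl 𝔟 ↔ ∃ x y : 𝓞 K, x - 1 ∈ 𝔣 ∧ y - 1 ∈ 𝔣 ∧
    (∀ σ : K →+* ℝ, 0 < σ (x : K) ∧ 0 < σ (y : K)) ∧
      Ideal.span {x} * (𝔞 : Ideal (𝓞 K)) = Ideal.span {y} * (𝔟 : Ideal (𝓞 K))

variable {𝔣 : Ideal (𝓞 K)} {G : Type} [CommGroup G]

/-- the partial zeta function `ζ(s, A) = ∑ N(𝔞)^{-s}`, over the integral ideals `𝔞` in the class `A` -/
noncomputable def zeta (cl : PrimeTo 𝔣 →* G) (A : G) (s : ℂ) : ℂ :=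
  ∑' 𝔞 : Ideal (𝓞 K), if (∃ h : IsCoprime 𝔞 𝔣, cl ⟨𝔞, h⟩ = A) then
    ((Ideal.absNorm 𝔞 : ℕ) : ℂ) ^ (-s) else 0

/-- `Z` is the continuation of `ζ(s, A)`: meromorphic in the plane, equal to it for `Re s > 1` -/
def IsContinuation (cl : PrimeTo 𝔣 →* G) (A : G) (Z : ℂ → ℂ) : Prop :=
  (∀ s, MeromorphicAt Z s) ∧ ∀ s : ℂ, 1 < s.re → Z s = zeta cl A s

/-- the weight of the prime power `v^k`, `x = (v, k - 1)`:
`(1/k) e^{iγ k log N(v) / T} / Γ(1 + k log N(v) / T)` -/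
noncomputable def weight (γ T : ℝ) (x : HeightOneSpectrum (𝓞 K) × ℕ) : ℂ :=
  1 / (x.2 + 1) * (Complex.exp ((γ * ((x.2 + 1) * Real.log (Ideal.absNorm x.1.asIdeal) / T) : ℝ) *
    Complex.I) / (Real.Gamma (1 + (x.2 + 1) * Real.log (Ideal.absNorm x.1.asIdeal) / T) : ℂ))

/-- the prime power `v^k`, `x = (v, k - 1)`, is prime to `𝔣` and lies in the class `B` -/
def InClass (cl : PrimeTo 𝔣 →* G) (B : G) (x : HeightOneSpectrum (𝓞 K) × ℕ) : Prop :=
  ∃ h : IsCoprime x.1.asIdeal 𝔣, cl ⟨x.1.asIdeal, h⟩ ^ (x.2 + 1) = B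

/-- `P_T(B)` -/
noncomputable def P (cl : PrimeTo 𝔣 →* G) (γ T : ℝ) (B : G) : ℂ :=
  ∑' x : HeightOneSpectrum (𝓞 K) × ℕ, if InClass cl B x then weight γ T x else 0

/-- `Z_T(A)`, the coefficient of `A` of `exp(∑_B P_T(B) [B])` -/
noncomputable def Z (cl : PrimeTo 𝔣 →* G) (γ T : ℝ) (A : G) : ℂ :=
  (Nat.card G : ℂ)⁻¹ * ∑ᶠ χ : G →* ℂˣ, ((χ A⁻¹ : ℂˣ) : ℂ) *
    Complex.exp (∑ᶠ B : G, ((χ B : ℂˣ) : ℂ) * P cl γ T B)

/-- `Λ = ∫_0^∞ (e^{-u} - e^{iγu} / Γ(1 + u)) du / u` -/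
noncomputable def Lam (γ : ℝ) : ℂ := ∫ u in Set.Ioi (0 : ℝ),
  (Complex.exp (-(u : ℂ)) - Complex.exp ((γ * u : ℝ) * Complex.I) * ((Real.Gamma (1 + u))⁻¹ : ℝ)) / u

/-- `T e^{-Λ} Z_T(A)` -/
noncomputable def approx (cl : PrimeTo 𝔣 →* G) (γ T : ℝ) (A : G) : ℂ :=
  (T : ℂ) * Complex.exp (-Lam γ) * Z cl γ T A

end defs

/-- **Main theorem.**  Let `K` be a number field with exactly one complex place (for instance an ATR
field, the case of the problem), `𝔣` an integral ideal, `𝔣 ≠ 0, 𝒪_K`, `G = Cl⁺(𝔣)` and `γ > π/2`.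
* The sums `P_T(B)` converge absolutely.
* Every partial zeta function has a continuation, and there are real numbers `D(A) = ζ'_𝔣(A, 0)` with
  `Z(s) / s → D(A)` as `s → 0` for the continuation `Z` of `ζ_𝔣(A, s)` (so that `ζ_𝔣(A, 0) = 0`) and
  `T e^{-Λ} Z_T(A) = D(A) + O(1/T)`.
* For every integer `e ≥ 1` and positive real numbers `a_A`: `ζ'_𝔣(A, 0) = -(1/e) log a_A` for all `A` if
  and only if there is a sequence `T_n → ∞` along which `exp(-e T e^{-Λ} Z_T(A)) → a_A` for all `A`. -/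
theorem result (K : Type) [Field K] [NumberField K]
    (hC : InfinitePlace.nrComplexPlaces K = 1)
    (𝔣 : Ideal (𝓞 K)) (hbot : 𝔣 ≠ ⊥) (htop : 𝔣 ≠ ⊤)
    (G : Type) [CommGroup G] [Finite G] (cl : PrimeTo 𝔣 →* G) (hcl : IsNarrowRayClass 𝔣 cl)
    (γ : ℝ) (hγ : Real.pi / 2 < γ) :
    (∀ T : ℝ, 0 < T → ∀ B : G, Summable fun x => ‖if InClass cl B x then weight γ T x else 0‖) ∧
    ∃ D : G → ℝ, (∀ A : G, (∃ Z, IsContinuation cl A Z) ∧
      (∀ Z, IsContinuation cl A Z → Tendsto (fun s : ℂ => Z s / s) (𝓝[≠] 0) (𝓝 (D A : ℂ))) ∧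
      (fun T : ℝ => approx cl γ T A - D A) =O[atTop] (fun T : ℝ => 1 / T)) ∧
      ∀ (e : ℕ) (a : G → ℝ), 1 ≤ e → (∀ A, 0 < a A) →
        ((∀ A, D A = -(1 / e) * Real.log (a A)) ↔
          ∃ t : ℕ → ℝ, Tendsto t atTop atTop ∧
            ∀ A, Tendsto (fun n => Complex.exp (-e * approx cl γ (t n) A)) atTop (𝓝 (a A : ℂ))) := by
  have hT : Pool.Agent.N739.SU.TrivAt Set.univ (𝔮 := 𝔣) cl := by
    intro x hx hs
    have h2 : cl ⟨Ideal.span {x}, Pool.Agent.Y773.IQ.cop_one hx⟩ = cl 1 := by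
      refine (hcl.eq_iff _ _).2 ⟨1, x, by simp, hx, fun σ => ⟨by simp, hs σ trivial⟩, ?_⟩
      rw [Ideal.span_singleton_one, ← Ideal.one_eq_top, one_mul]
      exact (mul_one _).symm
    exact h2.trans (map_one cl)
  obtain ⟨w, hw⟩ : ∃ w : InfinitePlace K, w.IsComplex := by
    by_contra h
    push Not at h
    have h1 : InfinitePlace.nrComplexPlaces K = 0 := by
      unfold InfinitePlace.nrComplexPlaces
      rw [Fintype.card_eq_zero_iff]
      exact ⟨fun w => h w.1 w.2⟩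
    omega
  have hr : Pool.Agent.N739.SU.OrdGe htop (𝔮 := 𝔣) cl 1 := by
    have h1 := hT.ordGe hbot htop {w} (fun v hv => by
      rw [Finset.mem_singleton.1 hv]; exact Pool.Agent.N739.SU.off_cpx _ hw)
    rwa [Finset.card_singleton] at h1
  obtain ⟨D₀, hD₀⟩ := Pool.Agent.N739.SU.main hbot htop hT.triv hr hγ
  obtain ⟨D, hDD⟩ : ∃ D : G → ℝ, ∀ A, (D A : ℂ) = D₀ A :=
    ⟨fun A => (D₀ A).re, fun A => Pool.Agent.N739.SU.real_of (hD₀ A).1 (hD₀ A).2.1⟩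
  have hD := hD₀
  simp only [← hDD] at hD
  have hO : ∀ A, (fun T : ℝ => approx cl γ T A - D A) =O[atTop] (fun T : ℝ => 1 / T) := by
    intro A
    refine (hD A).2.2.congr_left fun T => ?_
    rw [pow_one]
    rfl
  refine ⟨fun T hT0 B => Pool.Agent.N739.SU.summ hbot htop hT.triv γ hT0 B, D, fun A => ⟨?_, ?_, hO A⟩,
    fun e a he ha => ?_⟩
  · obtain ⟨Z, hZ⟩ := (hD A).1
    exact ⟨Z, hZ⟩
  · intro Z hZ
    refine ((hD A).2.1 Z hZ).congr fun s => ?_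
    rw [pow_one, div_eq_inv_mul]
  · exact Pool.Agent.N739.SU.log_iff (f := fun A T => approx cl γ T A) hO he ha

end Pool.Agent.Results.MP_29cb78_nt.UnitsFromPrimes
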